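import Mathlib

/-!
# MP_7488b5_nt, Q1: the answer is no

Let `F` be a finite field of characteristic `p`, let `n ≥ 2` and `p > n + 1`.  Mahler's series
`ξ = T^(-1) + T^(-p) + T^(-p^2) + ⋯` is algebraic of degree `> n`, and
`ŵ*_n(ξ) ≤ (p - 1)/(p - n) < n`.  For instance `p = 5`, `n = 2` gives `ŵ*_2(ξ) ≤ 4/3 < 2`.
-/

namespace Pool.Agent.Results.MP_7488b5_nt.UniformStarSmall

open Polynomial

section Defs

variable (F : Type) [Field F] [Fintype F]

/-- The element `T` of `F((T⁻¹))`; the field `F((T⁻¹))` is realised as the field of Laurent series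
in the variable `T⁻¹`, so `T = (T⁻¹)^(-1)`. -/
noncomputable def T : LaurentSeries F := HahnSeries.single (-1 : ℤ) (1 : F)

/-- The embedding `F[T] → F((T⁻¹))`. -/
noncomputable def emb : F[X] →+* LaurentSeries F := Polynomial.eval₂RingHom HahnSeries.C (T F)

variable {F}

/-- The absolute value `|ξ| = q^(-N)` if `ξ = ∑_{n ≥ N} a_n T^(-n)` with `a_N ≠ 0`; `|0| = 0`. -/
noncomputable def av (x : LaurentSeries F) : ℝ :=
  open Classical in if x = 0 then 0 else (Fintype.card F : ℝ) ^ (-x.order)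

/-- The value at `x ∈ F((T⁻¹))` of a polynomial over `F[T]`. -/
noncomputable def ev (P : F[X][X]) (x : LaurentSeries F) : LaurentSeries F := P.eval₂ (emb F) x

/-- the maximal degree (in `T`) of a coefficient -/
noncomputable def ht (P : F[X][X]) : ℕ := P.support.sup (fun i => (P.coeff i).natDegree)

/-- The height of a nonzero polynomial over `F[T]`: the maximum of the absolute values of its
coefficients. -/
noncomputable def Ht (P : F[X][X]) : ℝ := (Fintype.card F : ℝ) ^ (ht P)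

/-- `A` is a minimal defining polynomial over `F[T]` of `α`: irreducible in `F[T][X]` with root
`α`. -/
def IsMinDef (A : F[X][X]) (α : LaurentSeries F) : Prop := Irreducible A ∧ ev A α = 0

/-- `ξ` is algebraic. -/
def IsAlg (ξ : LaurentSeries F) : Prop := ∃ A : F[X][X], A ≠ 0 ∧ ev A ξ = 0

/-- `ξ` is algebraic of degree greater than `n`. -/
def DegGt (ξ : LaurentSeries F) (n : ℕ) : Prop :=
  IsAlg ξ ∧ ∀ A : F[X][X], A ≠ 0 → ev A ξ = 0 → n < A.natDegree

/-- The property in the definition of `ŵ_n(ξ)`. -/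
def AdmW (ξ : LaurentSeries F) (n : ℕ) (w : ℝ) : Prop :=
  ∃ H₀ : ℝ, ∀ H : ℝ, H₀ < H → ∃ P : F[X][X], P.natDegree ≤ n ∧ Ht P ≤ H ∧
    0 < av (ev P ξ) ∧ av (ev P ξ) < H ^ (-w)

/-- The property in the definition of `ŵ*_n(ξ)`. -/
def AdmStar (ξ : LaurentSeries F) (n : ℕ) (w : ℝ) : Prop :=
  ∃ H₀ : ℝ, ∀ H : ℝ, H₀ < H → ∃ (α : LaurentSeries F) (A : F[X][X]), IsMinDef A α ∧
    A.natDegree ≤ n ∧ Ht A ≤ H ∧ 0 < av (ξ - α) ∧ av (ξ - α) < (Ht A)⁻¹ * H ^ (-w)

/-- `ŵ_n(ξ)`, an extended real number. -/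
noncomputable def wHat (ξ : LaurentSeries F) (n : ℕ) : EReal :=
  sSup {e : EReal | ∃ w : ℝ, AdmW ξ n w ∧ e = (w : EReal)}

/-- `ŵ*_n(ξ)`, an extended real number. -/
noncomputable def wHatStar (ξ : LaurentSeries F) (n : ℕ) : EReal :=
  sSup {e : EReal | ∃ w : ℝ, AdmStar ξ n w ∧ e = (w : EReal)}

end Defs

/-- The statement asked about in Q1. -/
def Q1Statement : Prop :=
  ∀ (F : Type) [Field F] [Fintype F] (n : ℕ), 1 ≤ n → ∀ ξ : LaurentSeries F, DegGt ξ n →
    wHat ξ n = (n : ℝ) ∧ wHatStar ξ n = (n : ℝ)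

section AbsoluteValue

variable {F : Type} [Field F] [Fintype F]

lemma card_gt : (1 : ℝ) < (Fintype.card F : ℝ) := by
  exact_mod_cast Fintype.one_lt_card

lemma av_zero : av (0 : LaurentSeries F) = 0 := by simp [av]

lemma av_of_ne {x : LaurentSeries F} (hx : x ≠ 0) : av x = (Fintype.card F : ℝ) ^ (-x.order) := by
  simp [av, hx]

lemma av_nonneg (x : LaurentSeries F) : 0 ≤ av x := by
  unfold av; split_ifs
  · exact le_rfl
  · positivity

lemma av_pos {x : LaurentSeries F} (hx : x ≠ 0) : 0 < av x := by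
  rw [av_of_ne hx]
  have := card_gt (F := F)
  positivity

lemma ne_of_av_pos {x : LaurentSeries F} (hx : 0 < av x) : x ≠ 0 := by
  rintro rfl
  rw [av_zero] at hx
  exact lt_irrefl _ hx

lemma av_mul (x y : LaurentSeries F) : av (x * y) = av x * av y := by
  by_cases hx : x = 0
  · simp [hx, av_zero]
  by_cases hy : y = 0
  · simp [hy, av_zero]
  rw [av_of_ne hx, av_of_ne hy, av_of_ne (mul_ne_zero hx hy), HahnSeries.order_mul hx hy,
    ← zpow_add₀ (by linarith [card_gt (F := F)])]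
  congr 1; ring

lemma av_one : av (1 : LaurentSeries F) = 1 := by
  rw [av_of_ne one_ne_zero, HahnSeries.order_one]; simp

lemma av_pow (x : LaurentSeries F) (k : ℕ) : av (x ^ k) = av x ^ k := by
  induction k with
  | zero => simp [av_one]
  | succ k ih => rw [pow_succ, pow_succ, av_mul, ih]

lemma av_neg (x : LaurentSeries F) : av (-x) = av x := by
  by_cases hx : x = 0
  · simp [hx]
  · rw [av_of_ne hx, av_of_ne (neg_ne_zero.2 hx), HahnSeries.order_neg]

lemma av_add_le {x y : LaurentSeries F} {M : ℝ} (hx : av x ≤ M) (hy : av y ≤ M) :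
    av (x + y) ≤ M := by
  by_cases hxy : x + y = 0
  · rw [hxy, av_zero]; exact (av_nonneg x).trans hx
  by_cases hx0 : x = 0
  · rw [hx0, zero_add]; exact hy
  by_cases hy0 : y = 0
  · rw [hy0, add_zero]; exact hx
  have h := HahnSeries.min_order_le_order_add hxy
  have hc := card_gt (F := F)
  rw [av_of_ne hxy]
  rcases le_total x.order y.order with h1 | h1
  · rw [min_eq_left h1] at h
    refine le_trans ?_ hx
    rw [av_of_ne hx0]
    exact zpow_le_zpow_right₀ hc.le (by omega)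
  · rw [min_eq_right h1] at h
    refine le_trans ?_ hy
    rw [av_of_ne hy0]
    exact zpow_le_zpow_right₀ hc.le (by omega)

lemma av_sub_le {x y : LaurentSeries F} {M : ℝ} (hx : av x ≤ M) (hy : av y ≤ M) :
    av (x - y) ≤ M := by
  rw [sub_eq_add_neg]; exact av_add_le hx (by rwa [av_neg])

lemma av_sum_le {ι : Type} (s : Finset ι) (f : ι → LaurentSeries F) {M : ℝ} (hM : 0 ≤ M)
    (h : ∀ i ∈ s, av (f i) ≤ M) : av (∑ i ∈ s, f i) ≤ M := by
  classical
  induction s using Finset.induction_on with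
  | empty => simpa [av_zero] using hM
  | insert a s ha ih =>
    rw [Finset.sum_insert ha]
    exact av_add_le (h a (Finset.mem_insert_self _ _))
      (ih fun i hi => h i (Finset.mem_insert_of_mem hi))

/-- a nonzero element with nonzero coefficient at `i` has `|x| ≥ q^(-i)` -/
lemma le_av {x : LaurentSeries F} {i : ℤ} (h : x.coeff i ≠ 0) :
    (Fintype.card F : ℝ) ^ (-i) ≤ av x := by
  have hx : x ≠ 0 := by rintro rfl; simp at h
  rw [av_of_ne hx]
  have := HahnSeries.order_le_of_coeff_ne_zero h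
  exact zpow_le_zpow_right₀ (card_gt (F := F)).le (by omega)

lemma av_le {x : LaurentSeries F} {i : ℤ} (h : ∀ j < i, x.coeff j = 0) :
    av x ≤ (Fintype.card F : ℝ) ^ (-i) := by
  have hc := card_gt (F := F)
  by_cases hx : x = 0
  · rw [hx, av_zero]; positivity
  · rw [av_of_ne hx]
    have h1 : i ≤ x.order := (HahnSeries.le_order_iff_forall hx).2 h
    exact zpow_le_zpow_right₀ hc.le (by omega)

omit [Fintype F] in
lemma T_pow (i : ℕ) : (T F) ^ i = HahnSeries.single (-(i : ℤ)) (1 : F) := by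
  unfold T
  rw [HahnSeries.single_pow]
  simp

omit [Fintype F] in
lemma T_ne : T F ≠ 0 := by
  unfold T
  exact HahnSeries.single_ne_zero one_ne_zero

lemma av_T_pow (i : ℕ) : av ((T F) ^ i) = (Fintype.card F : ℝ) ^ i := by
  rw [T_pow, av_of_ne (HahnSeries.single_ne_zero one_ne_zero), HahnSeries.order_single one_ne_zero]
  simp

lemma emb_eq (R : F[X]) : emb F R = ∑ i ∈ Finset.range (R.natDegree + 1),
    HahnSeries.single (-(i : ℤ)) (R.coeff i) := by
  unfold emb
  rw [coe_eval₂RingHom, eval₂_eq_sum_range]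
  apply Finset.sum_congr rfl
  intro i _
  rw [T_pow, HahnSeries.C_apply, HahnSeries.single_mul_single]
  simp

lemma emb_coeff (R : F[X]) (i : ℕ) : (emb F R).coeff (-(i : ℤ)) = R.coeff i := by
  rw [emb_eq, HahnSeries.coeff_sum]
  by_cases hi : i < R.natDegree + 1
  · rw [Finset.sum_eq_single i]
    · rw [HahnSeries.coeff_single_same]
    · intro j _ hj
      apply HahnSeries.coeff_single_of_ne
      omega
    · intro h; exact absurd (Finset.mem_range.2 hi) h
  · rw [Finset.sum_eq_zero, coeff_eq_zero_of_natDegree_lt (by omega)]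
    intro j hj
    rw [Finset.mem_range] at hj
    apply HahnSeries.coeff_single_of_ne
    omega

lemma emb_injective : Function.Injective (emb F) := by
  rw [injective_iff_map_eq_zero]
  intro R hR
  ext i
  rw [← emb_coeff, hR]; simp

lemma av_emb_ge {R : F[X]} (hR : R ≠ 0) : 1 ≤ av (emb F R) := by
  have h : (emb F R).coeff (-(R.natDegree : ℤ)) ≠ 0 := by
    rw [emb_coeff]; exact leadingCoeff_ne_zero.2 hR
  refine le_trans ?_ (le_av h)
  rw [neg_neg, zpow_natCast]
  exact one_le_pow₀ (card_gt (F := F)).le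

lemma av_emb_le (R : F[X]) : av (emb F R) ≤ (Fintype.card F : ℝ) ^ R.natDegree := by
  have hc := card_gt (F := F)
  rw [emb_eq]
  apply av_sum_le _ _ (by positivity)
  intro i hi
  rw [Finset.mem_range] at hi
  by_cases h0 : R.coeff i = 0
  · rw [h0]; simp [av_zero]
  · rw [av_of_ne (HahnSeries.single_ne_zero h0), HahnSeries.order_single h0, neg_neg, zpow_natCast]
    exact pow_le_pow_right₀ hc.le (by omega)

omit [Fintype F] in
lemma coeff_le_ht (P : F[X][X]) (i : ℕ) : (P.coeff i).natDegree ≤ ht P := by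
  by_cases h : i ∈ P.support
  · exact Finset.le_sup (f := fun i => (P.coeff i).natDegree) h
  · rw [notMem_support_iff.1 h]; simp

lemma av_pow_sub_pow {x y : LaurentSeries F} (hx : av x ≤ 1) (hy : av y ≤ 1) (i : ℕ) :
    av (x ^ i - y ^ i) ≤ av (x - y) := by
  induction i with
  | zero => simp [av_zero, av_nonneg]
  | succ i ih =>
    have h : x ^ (i + 1) - y ^ (i + 1) = x * (x ^ i - y ^ i) + (x - y) * y ^ i := by ring
    rw [h]
    apply av_add_le
    · rw [av_mul]
      calc av x * av (x ^ i - y ^ i) ≤ 1 * av (x - y) :=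
            mul_le_mul hx ih (av_nonneg _) zero_le_one
        _ = av (x - y) := one_mul _
    · rw [av_mul, av_pow]
      calc av (x - y) * av y ^ i ≤ av (x - y) * 1 :=
            mul_le_mul_of_nonneg_left (pow_le_one₀ (av_nonneg _) hy) (av_nonneg _)
        _ = av (x - y) := mul_one _

/-- Lipschitz bound for polynomials on the unit ball. -/
lemma av_ev_sub {x y : LaurentSeries F} (hx : av x ≤ 1) (hy : av y ≤ 1) (P : F[X][X]) :
    av (ev P x - ev P y) ≤ (Fintype.card F : ℝ) ^ (ht P) * av (x - y) := by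
  have hc := card_gt (F := F)
  unfold ev
  rw [eval₂_eq_sum_range, eval₂_eq_sum_range, ← Finset.sum_sub_distrib]
  apply av_sum_le _ _ (mul_nonneg (by positivity) (av_nonneg _))
  intro i _
  rw [← mul_sub, av_mul]
  apply mul_le_mul _ (av_pow_sub_pow hx hy i) (av_nonneg _) (by positivity)
  exact (av_emb_le _).trans (pow_le_pow_right₀ hc.le (coeff_le_ht P i))

end AbsoluteValue

section Homogenise

variable {F : Type} [Field F] [Fintype F]

/-- `∑ a_i s^i T^((d-i)N)` -/
noncomputable def hom (A : F[X][X]) (s : F[X]) (N d : ℕ) : F[X] :=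
  ∑ i ∈ Finset.range (d + 1), A.coeff i * s ^ i * X ^ ((d - i) * N)

omit [Fintype F] in
lemma emb_X : emb F X = T F := by
  unfold emb; simp

lemma emb_hom {A : F[X][X]} {s : F[X]} {N d : ℕ} {y : LaurentSeries F} (hd : A.natDegree ≤ d)
    (hy : (T F) ^ N * y = emb F s) : emb F (hom A s N d) = (T F) ^ (d * N) * ev A y := by
  unfold hom ev
  rw [eval₂_eq_sum_range' (emb F) (Nat.lt_succ_of_le hd), map_sum, Finset.mul_sum]
  apply Finset.sum_congr rfl
  intro i hi
  rw [Finset.mem_range] at hi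
  rw [map_mul, map_mul, map_pow, map_pow, emb_X, ← hy]
  have : d * N = i * N + (d - i) * N := by
    rw [← add_mul]; congr 1; omega
  rw [this, pow_add, pow_mul, pow_mul, mul_pow]
  ring

end Homogenise

section Mahler

variable (F : Type) [Field F] [Fintype F] (p : ℕ)

/-- `δ_k = ∑_{j ≥ k} T^(-p^j)` -/
noncomputable def delta (k : ℕ) : LaurentSeries F :=
  open Classical in
  HahnSeries.ofPowerSeries ℤ F (PowerSeries.mk fun m => if ∃ j, k ≤ j ∧ m = p ^ j then 1 else 0)

/-- Mahler's series `ξ = ∑_{j ≥ 0} T^(-p^j)`: the coefficient of `T^(-m)` is `1` if `m` is a power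
of `p` (with exponent `≥ 0`) and `0` otherwise. -/
noncomputable def xi : LaurentSeries F := delta F p 0

variable {F p}

omit [Fintype F] in
lemma delta_coeff_nat (k m : ℕ) : (delta F p k).coeff (m : ℤ) =
    open Classical in if ∃ j, k ≤ j ∧ m = p ^ j then 1 else 0 := by
  unfold delta
  rw [HahnSeries.ofPowerSeries_apply_coeff, PowerSeries.coeff_mk]

lemma delta_coeff_neg (k : ℕ) {m : ℤ} (hm : m < 0) : (delta F p k).coeff m = 0 := by
  unfold delta
  rw [HahnSeries.ofPowerSeries_apply]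
  apply HahnSeries.embDomain_of_notMem_range
  rintro ⟨y, hy⟩
  have : (0 : ℤ) ≤ m := by rw [← hy]; exact Int.natCast_nonneg y
  omega

lemma delta_succ (hp : 2 ≤ p) (k : ℕ) :
    delta F p k = HahnSeries.single ((p ^ k : ℕ) : ℤ) (1 : F) + delta F p (k + 1) := by
  classical
  ext m
  rcases lt_or_ge m 0 with hm | hm
  · rw [HahnSeries.coeff_add, delta_coeff_neg k hm, delta_coeff_neg (k + 1) hm,
      HahnSeries.coeff_single_of_ne (by have : (0 : ℤ) ≤ ((p ^ k : ℕ) : ℤ) := by positivity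
                                        omega), add_zero]
  · obtain ⟨m, rfl⟩ := Int.eq_ofNat_of_zero_le hm
    rw [HahnSeries.coeff_add, delta_coeff_nat, delta_coeff_nat]
    by_cases h : m = p ^ k
    · subst h
      rw [if_pos ⟨k, le_rfl, rfl⟩, HahnSeries.coeff_single_same, if_neg, add_zero]
      rintro ⟨j, hj, hjk⟩
      have := Nat.pow_lt_pow_right (show 1 < p by omega) (show k < j by omega)
      omega
    · rw [HahnSeries.coeff_single_of_ne (by exact_mod_cast h), zero_add]
      congr 1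
      apply propext
      constructor
      · rintro ⟨j, hj, hjk⟩
        refine ⟨j, ?_, hjk⟩
        rcases Nat.lt_or_ge k j with h' | h'
        · omega
        · exfalso; apply h; rw [hjk]; congr 1; omega
      · rintro ⟨j, hj, hjk⟩
        exact ⟨j, by omega, hjk⟩

lemma delta_coeff_lt (hp : 2 ≤ p) (k : ℕ) : ∀ j < ((p ^ k : ℕ) : ℤ), (delta F p k).coeff j = 0 := by
  classical
  intro j hj
  rcases lt_or_ge j 0 with hm | hm
  · exact delta_coeff_neg k hm
  · obtain ⟨m, rfl⟩ := Int.eq_ofNat_of_zero_le hm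
    rw [delta_coeff_nat, if_neg]
    rintro ⟨i, hi, him⟩
    have := Nat.pow_le_pow_right (show 0 < p by omega) hi
    omega

lemma av_delta (hp : 2 ≤ p) (k : ℕ) :
    av (delta F p k) = (Fintype.card F : ℝ) ^ (-((p ^ k : ℕ) : ℤ)) := by
  classical
  apply le_antisymm
  · exact av_le (delta_coeff_lt hp k)
  · apply le_av
    rw [delta_coeff_nat, if_pos ⟨k, le_rfl, rfl⟩]
    exact one_ne_zero

/-- the truncations `r_k = ∑_{j ≤ k} T^(-p^j)` -/
noncomputable def r (F : Type) [Field F] (p k : ℕ) : LaurentSeries F :=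
  ∑ j ∈ Finset.range (k + 1), HahnSeries.single ((p ^ j : ℕ) : ℤ) (1 : F)

lemma xi_eq (hp : 2 ≤ p) (k : ℕ) : xi F p = r F p k + delta F p (k + 1) := by
  induction k with
  | zero =>
    unfold xi r
    rw [delta_succ hp 0]; simp
  | succ k ih =>
    rw [ih, delta_succ hp (k + 1)]
    unfold r
    rw [Finset.sum_range_succ _ (k + 1)]
    ring

/-- the numerators `S_k = ∑_{j ≤ k} X^(p^k - p^j)` -/
noncomputable def S (F : Type) [Field F] (p k : ℕ) : F[X] :=
  ∑ j ∈ Finset.range (k + 1), X ^ (p ^ k - p ^ j)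

lemma emb_S (hp : 2 ≤ p) (k : ℕ) : (T F) ^ (p ^ k) * r F p k = emb F (S F p k) := by
  unfold r S
  rw [Finset.mul_sum, map_sum]
  apply Finset.sum_congr rfl
  intro j hj
  rw [Finset.mem_range] at hj
  rw [map_pow, emb_X, T_pow, T_pow, HahnSeries.single_mul_single]
  have h := Nat.pow_le_pow_right (show 0 < p by omega) (show j ≤ k by omega)
  congr 1
  · push_cast [Nat.cast_sub h]; ring
  · ring

omit [Fintype F] in
lemma S_coeff_zero (hp : 2 ≤ p) (k : ℕ) : (S F p k).coeff 0 = 1 := by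
  unfold S
  rw [finsetSum_coeff, Finset.sum_eq_single k]
  · simp
  · intro j hj hjk
    rw [Finset.mem_range] at hj
    rw [coeff_X_pow, if_neg]
    have := Nat.pow_lt_pow_right (show 1 < p by omega) (show j < k by omega)
    omega
  · intro h; exact absurd (Finset.mem_range.2 (Nat.lt_succ_self k)) h

/-- If `A(r_k) = 0` then the leading coefficient of `A` is divisible by `T^(p^k)`. -/
lemma ht_ge_of_root (hp : 2 ≤ p) {A : F[X][X]} (hA : A ≠ 0) (k : ℕ) (h : ev A (r F p k) = 0) :
    p ^ k ≤ ht A := by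
  set d := A.natDegree with hd
  have h1 : hom A (S F p k) (p ^ k) d = 0 := by
    apply emb_injective
    rw [emb_hom le_rfl (emb_S hp k), h, mul_zero, map_zero]
  unfold hom at h1
  rw [Finset.sum_range_succ, Nat.sub_self, zero_mul, pow_zero, mul_one] at h1
  have h2 : X ^ (p ^ k) ∣ A.coeff d * (S F p k) ^ d := by
    have h3 : X ^ (p ^ k) ∣ ∑ i ∈ Finset.range d,
        A.coeff i * (S F p k) ^ i * X ^ ((d - i) * p ^ k) := by
      apply Finset.dvd_sum
      intro i hi
      rw [Finset.mem_range] at hi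
      apply Dvd.dvd.mul_left
      apply pow_dvd_pow
      exact Nat.le_mul_of_pos_left _ (by omega)
    have h4 : A.coeff d * (S F p k) ^ d = - ∑ i ∈ Finset.range d,
        A.coeff i * (S F p k) ^ i * X ^ ((d - i) * p ^ k) := by
      rw [eq_neg_iff_add_eq_zero, add_comm]; exact h1
    rw [h4]
    exact (dvd_neg).2 h3
  have hcop : IsCoprime (X ^ (p ^ k) : F[X]) ((S F p k) ^ d) := by
    apply IsCoprime.pow
    rw [(irreducible_X (R := F)).coprime_iff_not_dvd, X_dvd_iff, S_coeff_zero hp]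
    exact one_ne_zero
  have h5 := hcop.dvd_of_dvd_mul_right h2
  have h6 : A.coeff d ≠ 0 := leadingCoeff_ne_zero.2 hA
  have h7 := natDegree_le_of_dvd h5 h6
  rw [natDegree_X_pow] at h7
  exact h7.trans (coeff_le_ht A d)

/-- If `A(r_k) ≠ 0` then `|A(r_k)| ≥ q^(-n p^k)`. -/
lemma av_ev_r_ge (hp : 2 ≤ p) {A : F[X][X]} {n : ℕ} (hn : A.natDegree ≤ n) (k : ℕ)
    (h : ev A (r F p k) ≠ 0) : 1 ≤ (Fintype.card F : ℝ) ^ (n * p ^ k) * av (ev A (r F p k)) := by
  rw [← av_T_pow, ← av_mul, ← emb_hom hn (emb_S hp k)]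
  apply av_emb_ge
  intro h0
  have h1 := emb_hom hn (emb_S (F := F) hp k)
  rw [h0, map_zero] at h1
  have h2 := mul_eq_zero.1 h1.symm
  rcases h2 with h2 | h2
  · exact pow_ne_zero _ T_ne h2
  · exact h h2

lemma av_r_le (hp : 2 ≤ p) (k : ℕ) : av (r F p k) ≤ 1 := by
  unfold r
  apply av_sum_le _ _ zero_le_one
  intro j _
  rw [av_of_ne (HahnSeries.single_ne_zero one_ne_zero), HahnSeries.order_single one_ne_zero]
  apply zpow_le_one_of_nonpos₀ (card_gt (F := F)).le
  have : (0 : ℤ) ≤ ((p ^ j : ℕ) : ℤ) := by positivity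
  omega

lemma av_xi_le (hp : 2 ≤ p) : av (xi F p) ≤ 1 := by
  unfold xi
  rw [av_delta hp]
  apply zpow_le_one_of_nonpos₀ (card_gt (F := F)).le
  have : (0 : ℤ) ≤ ((p ^ 0 : ℕ) : ℤ) := by positivity
  omega

/-- `ξ^p - ξ + T⁻¹ = 0` -/
lemma xi_root [Fact p.Prime] [CharP F p] :
    (xi F p) ^ p - xi F p + HahnSeries.single (1 : ℤ) (1 : F) = 0 := by
  have hp : 2 ≤ p := (Fact.out : p.Prime).two_le
  have hchar : CharP (LaurentSeries F) p := charP_of_injective_ringHom
    (HahnSeries.C_injective (Γ := ℤ) (R := F)) p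
  have hc := card_gt (F := F)
  -- the value is arbitrarily small
  have hsmall : ∀ k : ℕ, av ((xi F p) ^ p - xi F p + HahnSeries.single (1 : ℤ) (1 : F)) ≤
      (Fintype.card F : ℝ) ^ (-((p ^ (k + 2) : ℕ) : ℤ)) := by
    intro k
    have h1 : (r F p k) ^ p = r F p (k + 1) - HahnSeries.single (1 : ℤ) (1 : F) := by
      unfold r
      rw [sum_pow_char, Finset.sum_range_succ' _ (k + 1)]
      have : ∀ j, (HahnSeries.single ((p ^ j : ℕ) : ℤ) (1 : F)) ^ p =
          HahnSeries.single ((p ^ (j + 1) : ℕ) : ℤ) (1 : F) := by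
        intro j
        rw [HahnSeries.single_pow]
        congr 1
        · push_cast; rw [nsmul_eq_mul, pow_succ]; ring
        · ring
      simp only [this]
      simp
    have h2 : (xi F p) ^ p - xi F p + HahnSeries.single (1 : ℤ) (1 : F) =
        (delta F p (k + 1)) ^ p - delta F p (k + 2) := by
      have h3 : (xi F p) ^ p = (r F p k) ^ p + (delta F p (k + 1)) ^ p := by
        rw [xi_eq hp k, add_pow_char]
      have h4 := xi_eq (F := F) hp (k + 1)
      rw [h3, h1]
      nth_rewrite 1 [h4]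
      ring
    rw [h2]
    apply av_sub_le
    · rw [av_pow, av_delta hp, ← zpow_natCast, ← zpow_mul]
      apply le_of_eq
      congr 1
      push_cast; ring
    · rw [av_delta hp]
  by_contra hne
  have hpos := av_pos hne
  rw [av_of_ne hne] at hsmall
  set m := ((xi F p) ^ p - xi F p + HahnSeries.single (1 : ℤ) (1 : F)).order with hm
  have h3 := hsmall m.toNat
  have h4 : -m ≤ -((p ^ (m.toNat + 2) : ℕ) : ℤ) := (zpow_le_zpow_iff_right₀ hc).1 h3
  have h5 : m.toNat < p ^ (m.toNat + 2) :=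
    (Nat.lt_pow_self (by omega : 1 < p)).trans_le (Nat.pow_le_pow_right (by omega) (by omega))
  omega

/-- algebraicity -/
lemma xi_alg [Fact p.Prime] [CharP F p] : IsAlg (xi F p) := by
  have hp : 2 ≤ p := (Fact.out : p.Prime).two_le
  refine ⟨C X * X ^ p - C X * X + 1, ?_, ?_⟩
  · intro h
    have := congrArg (fun P => P.coeff 0) h
    simp [coeff_X_pow] at this
    have hp0 : p ≠ 0 := by omega
    simp [hp0.symm] at this
  · unfold ev
    have h := xi_root (F := F) (p := p)
    have hT : T F * HahnSeries.single (1 : ℤ) (1 : F) = 1 := by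
      unfold T
      rw [HahnSeries.single_mul_single]
      simp
    simp only [eval₂_add, eval₂_sub, eval₂_mul, eval₂_C, eval₂_pow, eval₂_X, eval₂_one, emb_X]
    calc T F * xi F p ^ p - T F * xi F p + 1
        = T F * (xi F p ^ p - xi F p + HahnSeries.single (1 : ℤ) (1 : F)) := by
          rw [mul_add, hT]; ring
      _ = 0 := by rw [h, mul_zero]

/-- degree `> n` if `n < p` -/
lemma xi_deg (hp : 2 ≤ p) {n : ℕ} (hn : n < p) (A : F[X][X]) (hA : A ≠ 0)
    (hroot : ev A (xi F p) = 0) : n < A.natDegree := by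
  by_contra hle
  push Not at hle
  have hc := card_gt (F := F)
  -- choose `k` with `p^k > ht A`
  obtain ⟨k, hk⟩ : ∃ k, ht A < p ^ k := ⟨ht A, Nat.lt_pow_self (by omega)⟩
  have hne : ev A (r F p k) ≠ 0 := by
    intro h0
    have := ht_ge_of_root hp hA k h0
    omega
  have h1 := av_ev_r_ge hp hle k hne
  have h2 := av_ev_sub (av_r_le (F := F) hp k) (av_xi_le (F := F) hp) A
  rw [hroot, sub_zero] at h2
  have h3 : av (r F p k - xi F p) = (Fintype.card F : ℝ) ^ (-((p ^ (k + 1) : ℕ) : ℤ)) := by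
    rw [xi_eq hp k, ← av_delta hp, ← av_neg]
    congr 1; ring
  rw [h3] at h2
  have h4 : (1 : ℝ) ≤ (Fintype.card F : ℝ) ^ (n * p ^ k) *
      ((Fintype.card F : ℝ) ^ (ht A) * (Fintype.card F : ℝ) ^ (-((p ^ (k + 1) : ℕ) : ℤ))) :=
    h1.trans (mul_le_mul_of_nonneg_left h2 (by positivity))
  rw [← zpow_natCast, ← zpow_natCast, ← zpow_add₀ (by linarith), ← zpow_add₀ (by linarith)] at h4
  have h5 : (0 : ℤ) ≤ ((n * p ^ k : ℕ) : ℤ) + (((ht A : ℕ) : ℤ) + -((p ^ (k + 1) : ℕ) : ℤ)) := by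
    by_contra hlt
    push Not at hlt
    have := zpow_lt_one_of_neg₀ hc hlt
    linarith
  have h6 : p ^ (k + 1) ≤ n * p ^ k + ht A := by
    zify; push_cast at h5 ⊢; linarith
  have h7 : (n + 1) * p ^ k ≤ p ^ (k + 1) := by
    rw [pow_succ, mul_comm]; exact Nat.mul_le_mul_left _ hn
  nlinarith

/-- If an irreducible `A` vanishes at `r_k` and at `α` then `α = r_k`. -/
lemma eq_r_of_root (hp : 2 ≤ p) {A : F[X][X]} (hA : Irreducible A) {k : ℕ} {α : LaurentSeries F}
    (hr : ev A (r F p k) = 0) (hα : ev A α = 0) : α = r F p k := by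
  classical
  -- the embedding of the fraction field
  let K := FractionRing F[X]
  let ψ : K →+* LaurentSeries F := IsFractionRing.lift (A := F[X]) (K := K) emb_injective
  have hψ : ∀ R : F[X], ψ (algebraMap F[X] K R) = emb F R :=
    fun R => IsFractionRing.lift_algebraMap emb_injective R
  have hcomp : ψ.comp (algebraMap F[X] K) = emb F := RingHom.ext hψ
  have hdeg : A.natDegree ≠ 0 := by
    intro h0
    rw [natDegree_eq_zero] at h0
    obtain ⟨c, rfl⟩ := h0
    unfold ev at hr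
    rw [eval₂_C] at hr
    have : c = 0 := emb_injective (by rw [hr, map_zero])
    rw [this, C_0] at hA
    exact not_irreducible_zero hA
  have hprim : A.IsPrimitive := hA.isPrimitive hdeg
  have hirr : Irreducible (A.map (algebraMap F[X] K)) :=
    (IsPrimitive.irreducible_iff_irreducible_map_fraction_map hprim).1 hA
  set rk : K := algebraMap F[X] K (S F p k) / algebraMap F[X] K (X ^ (p ^ k)) with hrk
  have hXne : emb F (X ^ (p ^ k)) ≠ 0 := by
    rw [map_pow, emb_X]; exact pow_ne_zero _ T_ne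
  have hψr : ψ rk = r F p k := by
    rw [hrk, map_div₀, hψ, hψ, div_eq_iff hXne, ← emb_S hp k, map_pow, emb_X]; ring
  have hroot : (A.map (algebraMap F[X] K)).IsRoot rk := by
    rw [IsRoot.def]
    apply ψ.injective
    rw [map_zero, ← hr, ← hψr]
    unfold ev
    rw [eval_map, hom_eval₂, hcomp]
  have h1 := degree_eq_one_of_irreducible_of_root hirr hroot
  have h2 : A.natDegree = 1 := by
    have h3 := natDegree_eq_of_degree_eq_some h1
    rwa [natDegree_map_eq_of_injective (IsFractionRing.injective F[X] K)] at h3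
  have h4 : A = C (A.coeff 1) * X + C (A.coeff 0) := by
    conv_lhs => rw [eq_X_add_C_of_natDegree_le_one h2.le]
  have h5 : emb F (A.coeff 1) ≠ 0 := by
    intro h0
    have : A.coeff 1 = 0 := emb_injective (by rw [h0, map_zero])
    have h6 : A.leadingCoeff = 0 := by rw [leadingCoeff, h2]; exact this
    rw [leadingCoeff_eq_zero] at h6
    exact hA.ne_zero h6
  have hval : ∀ x, ev A x = emb F (A.coeff 1) * x + emb F (A.coeff 0) := by
    intro x
    unfold ev
    rw [h4]
    simp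
  rw [hval] at hr hα
  have h7 : emb F (A.coeff 1) * (α - r F p k) = 0 := by
    rw [mul_sub]
    have := hα.trans hr.symm
    have h8 : emb F (A.coeff 1) * α = emb F (A.coeff 1) * r F p k := by
      exact add_right_cancel this
    rw [h8, sub_self]
  rcases mul_eq_zero.1 h7 with h | h
  · exact absurd h h5
  · exact sub_eq_zero.1 h

/-- The main estimate: no `w > (p-1)/(p-n)` is admissible in the definition of `ŵ*_n(ξ)`. -/
lemma main (hp : 2 ≤ p) {n : ℕ} (hnp : n + 1 < p) {w : ℝ}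
    (hw : ((p : ℝ) - 1) / ((p : ℝ) - n) < w) : ¬ AdmStar (xi F p) n w := by
  rintro ⟨H₀, hH⟩
  have hc := card_gt (F := F)
  set q : ℝ := (Fintype.card F : ℝ) with hq
  have hq0 : 0 < q := by linarith
  have hpn : (0 : ℝ) < (p : ℝ) - n := by
    have : (n : ℝ) + 1 < p := by exact_mod_cast hnp
    linarith
  have hp1 : (0 : ℝ) < (p : ℝ) - 1 := by
    have : (2 : ℝ) ≤ p := by exact_mod_cast hp
    linarith
  have hw0 : 0 < w := lt_trans (div_pos hp1 hpn) hw
  set δ : ℝ := w * ((p : ℝ) - n) - ((p : ℝ) - 1) with hδ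
  have hδ0 : 0 < δ := by
    rw [div_lt_iff₀ hpn] at hw; linarith
  -- choose `k`
  obtain ⟨k₁, hk₁⟩ := exists_nat_gt (w / δ)
  obtain ⟨k₂, hk₂⟩ := pow_unbounded_of_one_lt H₀ hc
  set k := k₁ + k₂ + 1 with hk
  set M : ℕ := (p - n) * p ^ k - 1 with hM
  have hpk : k < p ^ k := Nat.lt_pow_self (by omega)
  have hM1 : p ^ k ≤ (p - n) * p ^ k := Nat.le_mul_of_pos_left _ (by omega)
  have hMR : (M : ℝ) = ((p : ℝ) - n) * (p : ℝ) ^ k - 1 := by
    rw [hM, Nat.cast_sub (by omega)]
    push_cast [Nat.cast_sub (by omega : n ≤ p)]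
    ring
  have hMk : k₂ ≤ M := by omega
  set H : ℝ := q ^ M with hHdef
  have hHH : H₀ < H := hk₂.trans_le (pow_le_pow_right₀ hc.le hMk)
  obtain ⟨α, A, ⟨hirr, hroot⟩, hdeg, hHt, hpos, hlt⟩ := hH H hHH
  have hHt' : ht A ≤ M := by
    unfold Ht at hHt
    rw [hHdef] at hHt
    exact (pow_le_pow_iff_right₀ hc).1 hHt
  -- `w M > (p-1) p^k`
  have hkey : ((p : ℝ) - 1) * (p : ℝ) ^ k ≤ w * M := by
    have h1 : w * M = ((p : ℝ) - 1) * (p : ℝ) ^ k + (δ * (p : ℝ) ^ k - w) := by
      rw [hMR, hδ]; ring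
    have h2 : w ≤ δ * (p : ℝ) ^ k := by
      rw [div_lt_iff₀ hδ0] at hk₁
      have h3 : (k₁ : ℝ) ≤ (p : ℝ) ^ k := by
        have : k₁ ≤ p ^ k := by omega
        exact_mod_cast this
      nlinarith
    linarith
  have hHw : H ^ (-w) = q ^ (-(w * M)) := by
    rw [hHdef, ← Real.rpow_natCast, ← Real.rpow_mul hq0.le]
    congr 1; ring
  have hH1 : H ^ (-w) ≤ 1 := by
    rw [hHw]
    apply Real.rpow_le_one_of_one_le_of_nonpos hc.le
    have : 0 ≤ w * M := by positivity
    linarith
  have hHtq : Ht A = q ^ (ht A) := rfl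
  have hHtinv : (Ht A)⁻¹ ≤ 1 := by
    rw [hHtq]; exact inv_le_one_of_one_le₀ (one_le_pow₀ hc.le)
  have hHtpos : 0 < Ht A := by rw [hHtq]; positivity
  have hα1 : av α ≤ 1 := by
    have h1 : av (xi F p - α) ≤ 1 := by
      refine hlt.le.trans ?_
      calc (Ht A)⁻¹ * H ^ (-w) ≤ 1 * 1 :=
            mul_le_mul hHtinv hH1 (Real.rpow_nonneg (by positivity) _) zero_le_one
        _ = 1 := one_mul 1
    have h2 : α = xi F p - (xi F p - α) := by ring
    rw [h2]
    exact av_sub_le (av_xi_le hp) h1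
  have hxr : av (xi F p - r F p k) = q ^ (-((p ^ (k + 1) : ℕ) : ℤ)) := by
    rw [xi_eq hp k, hq, ← av_delta hp]
    congr 1; ring
  by_cases hr : ev A (r F p k) = 0
  · -- `α = r_k`
    have hαr := eq_r_of_root hp hirr hr hroot
    have hht := ht_ge_of_root hp hirr.ne_zero k hr
    rw [hαr, hxr] at hlt
    have h1 : (Ht A)⁻¹ ≤ q ^ (-(((p ^ k : ℕ) : ℕ) : ℝ)) := by
      rw [Real.rpow_neg hq0.le, Real.rpow_natCast, hHtq]
      exact inv_anti₀ (by positivity) (pow_le_pow_right₀ hc.le hht)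
    have h2 : q ^ (-((p ^ (k + 1) : ℕ) : ℤ)) = q ^ (-(((p ^ (k + 1) : ℕ) : ℕ) : ℝ)) := by
      rw [← Real.rpow_intCast]; push_cast; rfl
    rw [h2, hHw] at hlt
    have h3 : q ^ (-(((p ^ (k + 1) : ℕ) : ℕ) : ℝ)) <
        q ^ (-(((p ^ k : ℕ) : ℕ) : ℝ)) * q ^ (-(w * M)) :=
      hlt.trans_le (mul_le_mul_of_nonneg_right h1 (Real.rpow_nonneg hq0.le _))
    rw [← Real.rpow_add hq0, Real.rpow_lt_rpow_left_iff hc] at h3
    push_cast at h3
    rw [pow_succ] at h3
    nlinarith
  · -- `A(r_k) ≠ 0`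
    have h1 := av_ev_r_ge hp hdeg k hr
    have h2 := av_ev_sub (av_r_le (F := F) hp k) hα1 A
    rw [hroot, sub_zero] at h2
    have h3 : (1 : ℝ) ≤ q ^ (n * p ^ k) * (q ^ (ht A) * av (r F p k - α)) :=
      h1.trans (mul_le_mul_of_nonneg_left h2 (by positivity))
    -- `|r_k - α| > |ξ - r_k|`
    have h4 : av (xi F p - r F p k) < av (r F p k - α) := by
      by_contra hge
      push Not at hge
      rw [hxr] at hge
      have h5 : (1 : ℝ) ≤ q ^ (n * p ^ k) * (q ^ (ht A) * q ^ (-((p ^ (k + 1) : ℕ) : ℤ))) :=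
        h3.trans (by gcongr)
      rw [← zpow_natCast, ← zpow_natCast, ← zpow_add₀ hq0.ne', ← zpow_add₀ hq0.ne'] at h5
      have h6 : (0 : ℤ) ≤ ((n * p ^ k : ℕ) : ℤ) +
          (((ht A : ℕ) : ℤ) + -((p ^ (k + 1) : ℕ) : ℤ)) := by
        by_contra hneg
        push Not at hneg
        have := zpow_lt_one_of_neg₀ hc hneg
        linarith
      have h7 : p ^ (k + 1) ≤ n * p ^ k + ht A := by
        zify; push_cast at h6 ⊢; linarith
      have h8 : p ^ (k + 1) = n * p ^ k + (p - n) * p ^ k := by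
        rw [← add_mul, pow_succ, mul_comm]; congr 1; omega
      omega
    have h5 : av (r F p k - α) ≤ av (xi F p - α) := by
      by_contra hlt2
      push Not at hlt2
      have h6 : r F p k - α = (xi F p - α) - (xi F p - r F p k) := by ring
      have h7 : av (r F p k - α) ≤ max (av (xi F p - α)) (av (xi F p - r F p k)) := by
        rw [h6]
        exact av_sub_le (le_max_left _ _) (le_max_right _ _)
      have h8 := max_lt hlt2 h4
      linarith
    have h6 : (1 : ℝ) < q ^ (n * p ^ k) * (q ^ (ht A) * ((Ht A)⁻¹ * H ^ (-w))) := by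
      refine h3.trans_lt ?_
      gcongr
      exact h5.trans_lt hlt
    rw [hHtq] at h6
    have h7 : q ^ (n * p ^ k) * (q ^ (ht A) * ((q ^ (ht A))⁻¹ * H ^ (-w))) =
        q ^ (n * p ^ k) * H ^ (-w) := by
      field_simp
    rw [h7, hHw, ← Real.rpow_natCast, ← Real.rpow_add hq0] at h6
    have h8 : (0 : ℝ) < ((n * p ^ k : ℕ) : ℝ) + -(w * M) := by
      by_contra hneg
      push Not at hneg
      have := Real.rpow_le_one_of_one_le_of_nonpos hc.le hneg
      linarith
    push_cast at h8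
    have h9 : (n : ℝ) * (p : ℝ) ^ k ≤ ((p : ℝ) - 1) * (p : ℝ) ^ k := by
      apply mul_le_mul_of_nonneg_right _ (by positivity)
      have : (n : ℝ) + 1 < p := by exact_mod_cast hnp
      linarith
    linarith

lemma wHatStar_le (hp : 2 ≤ p) {n : ℕ} (hnp : n + 1 < p) :
    wHatStar (xi F p) n ≤ (((((p : ℝ) - 1) / ((p : ℝ) - n) : ℝ)) : EReal) := by
  unfold wHatStar
  apply sSup_le
  rintro e ⟨w, hw, rfl⟩
  rw [EReal.coe_le_coe_iff]
  by_contra hlt
  push Not at hlt
  exact main hp hnp hlt hw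

end Mahler

/-- **The answer to Q1 is no.**  If `F` is a finite field of characteristic `p`, `n ≥ 2` and
`p > n + 1`, then Mahler's series `ξ = ∑ T^(-p^j)` is algebraic of degree greater than `n` and
`ŵ*_n(ξ) ≤ (p-1)/(p-n) < n`. -/
theorem result :
    (∀ (F : Type) [Field F] [Fintype F] (p : ℕ) [Fact p.Prime] [CharP F p] (n : ℕ), 2 ≤ n →
      n + 1 < p → DegGt (xi F p) n ∧
        wHatStar (xi F p) n ≤ (((((p : ℝ) - 1) / ((p : ℝ) - n) : ℝ)) : EReal) ∧
        wHatStar (xi F p) n < ((n : ℝ) : EReal)) ∧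
    ¬ Q1Statement := by
  have key : ∀ (F : Type) [Field F] [Fintype F] (p : ℕ) [Fact p.Prime] [CharP F p] (n : ℕ), 2 ≤ n →
      n + 1 < p → DegGt (xi F p) n ∧
        wHatStar (xi F p) n ≤ (((((p : ℝ) - 1) / ((p : ℝ) - n) : ℝ)) : EReal) ∧
        wHatStar (xi F p) n < ((n : ℝ) : EReal) := by
    intro F _ _ p _ _ n hn hnp
    have hp : 2 ≤ p := (Fact.out : p.Prime).two_le
    have h1 := wHatStar_le (F := F) hp hnp
    refine ⟨⟨xi_alg, xi_deg hp (by omega)⟩, h1, h1.trans_lt ?_⟩
    rw [EReal.coe_lt_coe_iff]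
    have h2 : (n : ℝ) + 2 ≤ p := by
      have : n + 2 ≤ p := by omega
      exact_mod_cast this
    have h3 : (2 : ℝ) ≤ n := by exact_mod_cast hn
    rw [div_lt_iff₀ (by linarith)]
    nlinarith
  refine ⟨key, fun h => ?_⟩
  have : Fact (Nat.Prime 5) := ⟨by norm_num⟩
  obtain ⟨h1, -, h2⟩ := key (ZMod 5) 5 2 le_rfl (by norm_num)
  have h3 := (h (ZMod 5) 2 (by norm_num) (xi (ZMod 5) 5) h1).2
  rw [h3] at h2
  exact lt_irrefl _ h2

end Pool.Agent.Results.MP_7488b5_nt.UniformStarSmall
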